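import Pool.Agent.H92.LG.Defs
import Pool.Agent.H82.FIN.Defs
import Pool.Agent.H82.FIN.Od
import Pool.Agent.H82.FIN.CTf
import Pool.Agent.H52.VC.Cen

set_option autoImplicit false

/-!
PROJECT LG (MP_bf82d2_ag, LinearGrowth; copy of the module of project FIN with an arbitrary bound D), module Cent.
Centrality: from `Pool.Agent.H52.VC.central_b`.
-/

namespace Pool.Agent.H92.LG

open Finset Module
open Pool.Agent.H93.Hup (Inv MinInv)
open Pool.Agent.H52.VC (lam subR)
open Pool.Agent.H82.CO (chi quadInv genus nu eps zeta)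
open Pool.Agent.H82.FIN

theorem cent {D : ℝ} {b σ : ℕ} {G : Type} [Group G] [Fintype G] {N : ℕ} {s : Fin N → G} {A S : Subgroup G} {x : G}
    {P : Subgroup G} {i₁ i₂ iy : Fin N} (h : CD D b σ s A S x P i₁ i₂ iy)
    (hC : 4 * σ * (σ + 2 * b * D) < (Nat.card G : ℝ)) :
    ∀ j, j ≠ i₁ → j ≠ i₂ → j ≠ iy → ∀ g, s j * g = g * s j := by
  intro j hj1 hj2 hjy g
  have h2 : ∀ i, i ≠ iy → s i ^ 2 ∈ S := by
    intro i hi
    by_cases h1 : i = i₁
    · have := od_mem S (s i₁)
      rw [h.o1] at this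
      rw [h1]
      exact this
    · by_cases h3 : i = i₂
      · have := od_mem S (s i₂)
        rw [h.o2] at this
        rw [h3]
        exact this
      · exact S.pow_mem (h.hj i h1 h3 hi) 2
  have hb : ∀ W : Submodule ℂ (G → ℂ), MinInv (lam (G := G)) W → (finrank ℂ W : ℝ) ≤ b := by
    intro W hW
    have h3 := irr_deg (fun g => LinearMap.trace ℂ W (subR lam W hW.2.1 g)) ⟨W, hW, fun g => rfl⟩ A h.red.hAc
    simp only [map_one, LinearMap.trace_one, Complex.natCast_re] at h3
    have h4 : (A.index : ℝ) ≤ b := by exact_mod_cast h.red.hAi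
    exact h3.trans h4
  exact (Pool.Agent.H52.VC.central_b s h.red.tup.prod h.red.tup.gen S h.red.hS σ h.red.hSc iy h2 b (Nat.cast_nonneg _)
    hb D h.red.hd hC j hjy (h.hj j hj1 hj2 hjy) g).symm

end Pool.Agent.H92.LG
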