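import Pool.Agent.H92.LG.Defs
import Pool.Agent.H92.LG.SetD
import Pool.Agent.H82.FIN.Scal
import Pool.Agent.H82.FIN.Mul
import Pool.Agent.H82.FIN.CTh
import Pool.Agent.H82.FIN.Ang
import Pool.Agent.H82.FIN.Od

set_option autoImplicit false

/-!
PROJECT LG (MP_bf82d2_ag, LinearGrowth; copy of the module of project FIN with an arbitrary bound D), module PosD.
Positive multiplicities in case D, central involution `z = s j`.
PROOF. `φ z ≠ φ 1`: `z` acts by `-1` (`scal`, `orderOf z = 2`), `ang z φ = φ(1)/2` (`ang_central`, `θ = 1/2`); `od P (s j) = 1` (`s j ∈ S ≤ P`),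
`od P (s iy) = 1`.  `mul_good`, `nuP_D`: `mul s φ ≥ φ(1) (-1/2) + φ(1)/2 + ang (s iy) φ > 0` (`ang_pos`), so `≥ 1` (`mul_nat`).
-/

namespace Pool.Agent.H92.LG

open Finset Module
open Pool.Agent.H93.Hup (Inv MinInv)
open Pool.Agent.H52.VC (lam subR)
open Pool.Agent.H82.CO (chi quadInv genus nu eps zeta)
open Pool.Agent.H82.FIN

variable {G : Type} [Group G] [Fintype G]

private theorem PosD_od {P : Subgroup G} {g : G} (h : g ∈ P) : od P g = 1 := by
  have h1 := (od_dvd P g 1).1 (by rw [pow_one]; exact h)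
  exact Nat.dvd_one.1 h1

theorem pos_D {D : ℝ} {b σ : ℕ} {N : ℕ} {s : Fin N → G} {A S : Subgroup G} {x : G} {P : Subgroup G} {i₁ i₂ iy : Fin N}
    (h : CD D b σ s A S x P i₁ i₂ iy) (j : Fin N) (hj1 : j ≠ i₁) (hj2 : j ≠ i₂) (hjy : j ≠ iy)
    (hz : ∀ g, s j * g = g * s j) (ho : orderOf (s j) = 2) (φ : G → ℂ) (hφ : IsIrr φ) (hg : ¬ Bad P φ)
    (h1 : φ (s j) ≠ φ 1) (h2 : φ (s iy) ≠ φ 1) : 1 ≤ mul s φ := by
  classical
  obtain ⟨t, ht, hs⟩ := scal (s j) hz φ hφ
  rw [ho] at ht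
  have ht1 : t = 1 := by
    rcases Nat.lt_succ_iff_lt_or_eq.1 ht with h3 | h3
    · exfalso
      have h4 : t = 0 := Nat.lt_one_iff.1 h3
      apply h1
      have h5 := hs 1
      rw [mul_one, h4] at h5
      rw [h5]
      simp
    · exact h3
  have ha := ang_central (s j) φ hφ ((t : ℝ) / orderOf (s j)) (by positivity) (by rw [ht1, ho]; norm_num) hs
  rw [ht1, ho] at ha
  have hm := mul_good s P h.hP φ hφ hg
  rw [nuP_D h] at hm
  have hjP : s j ∈ P := h.hSP (h.hj j hj1 hj2 hjy)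
  have hsum : (1 / (od P (s j) : ℝ)) * ang (s j ^ od P (s j)) φ + (1 / (od P (s iy) : ℝ)) * ang (s iy ^ od P (s iy)) φ
      ≤ ∑ i, (1 / (od P (s i) : ℝ)) * ang (s i ^ od P (s i)) φ := by
    rw [← Finset.sum_pair (f := fun i => (1 / (od P (s i) : ℝ)) * ang (s i ^ od P (s i)) φ) hjy]
    refine Finset.sum_le_sum_of_subset_of_nonneg (Finset.subset_univ _) fun i _ _ => ?_
    exact mul_nonneg (by positivity) (ang_nonneg _ φ hφ)
  rw [PosD_od hjP, PosD_od h.hy, pow_one, pow_one, ha] at hsum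
  have hp := ang_pos (s iy) φ hφ h2
  obtain ⟨m, -, hm2⟩ := mul_nat s h.red.tup φ hφ
  rw [hm2] at hm ⊢
  have hpos : (0 : ℝ) < m := by
    push_cast at hsum
    linarith
  have : 0 < m := by exact_mod_cast hpos
  exact_mod_cast this


end Pool.Agent.H92.LG
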