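import Pool.Agent.H92.LG.Defs
import Pool.Agent.H92.LG.PosD
import Pool.Agent.H82.FIN.LB
import Pool.Agent.H82.FIN.CTj
import Pool.Agent.H82.FIN.Exc
import Pool.Agent.H82.FIN.CTb
import Pool.Agent.H82.FIN.ExcB
import Pool.Agent.H82.CO.Main

set_option autoImplicit false

/-!
PROJECT LG (MP_bf82d2_ag, LinearGrowth; copy of the module of project FIN with an arbitrary bound D), module DInq.
The inequality of case D, central involution `z = s j`.
PROOF. `f g = (n/2) ([g = 1] - [g = z])`, a class function, `pr f φ = (φ 1 - φ z)/2 =: a φ`, real (`z` acts by `± 1`: `scal`), `0 ≤ a φ ≤ φ 1`.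
`LB`, `EX` = bad for `P`, and the `φ` with `φ (s iy) = φ 1`.  For `φ ∉ EX`, `a φ > 0`: `pos_D` for `φ` and for `cj φ`.  `∑ a (mul + fs) = Re pr (chi s) f
+ Re (1/n) ∑ f(g^2) = (genus s - Re chi s z)/2 + (rn 1 - rn z)/2` (`sum_mul_pr`, `sum_fs_pr`, `chi_one`).  Right side: `2 Re quadInv ≤ 4`, `∑_bad
φ(1)^2 ≤ 4 b^3 σ^2` (`exc_sum_sq`), `∑ φ(1)^2` over the `φ` with `φ (s iy) = φ 1` is `≤ b n/orderOf (s iy) ≤ 2 b σ` (`sum_fixed` with `K = zpowers (s iy)`,
`avg = φ 1 ≥ 1`: `φ y = φ 1` gives `φ (y^k) = φ 1`, e.g. by `ang`/`irr_norm` equality or `avg_closure`-like argument: eigenvalues all `1`;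
`orderOf (s iy) ≥ od S (s iy) = n/(2 |S|)`).
-/

namespace Pool.Agent.H92.LG

open Finset Module
open Pool.Agent.H93.Hup (Inv MinInv)
open Pool.Agent.H52.VC (lam subR)
open Pool.Agent.H82.CO (chi quadInv genus nu eps zeta)
open Pool.Agent.H82.FIN

variable {G : Type} [Group G] [Fintype G]

open Classical in
/-- the class function `(n/2) ([g = 1] - [g = z])` -/
private noncomputable def f_dinq (z g : G) : ℂ :=
  (Nat.card G : ℂ) / 2 * ((if g = 1 then 1 else 0) - (if g = z then 1 else 0))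

omit [Fintype G] in
private theorem f_class_dinq (z : G) (hz : ∀ g, z * g = g * z) (g x : G) :
    f_dinq z (x * g * x⁻¹) = f_dinq z g := by
  classical
  have h1 : x * g * x⁻¹ = 1 ↔ g = 1 := conj_eq_one_iff
  have h2 : x * g * x⁻¹ = z ↔ g = z := by
    constructor
    · intro h
      have h3 : x * g = z * x := by rw [← h]; group
      rw [hz x] at h3
      exact mul_left_cancel h3
    · rintro rfl
      rw [← hz x]
      group
  unfold f_dinq
  simp only [h1, h2]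

/-- the pairing with `f` from the left -/
private theorem pr_f_dinq (z : G) (hzz : z⁻¹ = z) (φ : G → ℂ) :
    pr (f_dinq z) φ = (φ 1 - φ z) / 2 := by
  classical
  have hn : (Nat.card G : ℂ) ≠ 0 := Nat.cast_ne_zero.2 Nat.card_pos.ne'
  have h1 : ∀ g : G, f_dinq z g * φ g⁻¹ = (Nat.card G : ℂ) / 2 *
      ((if g = 1 then φ g⁻¹ else 0) - (if g = z then φ g⁻¹ else 0)) := by
    intro g
    unfold f_dinq
    split_ifs <;> ring
  unfold pr
  rw [sum_congr rfl fun g _ => h1 g, ← mul_sum, sum_sub_distrib, sum_ite_eq', sum_ite_eq',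
    if_pos (mem_univ _), if_pos (mem_univ _), inv_one, hzz]
  field_simp

/-- the pairing with `f` from the right -/
private theorem pr_f'_dinq (z : G) (hzz : z⁻¹ = z) (k : G → ℂ) :
    pr k (f_dinq z) = (k 1 - k z) / 2 := by
  classical
  have hn : (Nat.card G : ℂ) ≠ 0 := Nat.cast_ne_zero.2 Nat.card_pos.ne'
  have h1 : ∀ g : G, k g * f_dinq z g⁻¹ = (Nat.card G : ℂ) / 2 *
      ((if g = 1 then k g else 0) - (if g = z then k g else 0)) := by
    intro g
    have h2 : g⁻¹ = z ↔ g = z := by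
      rw [inv_eq_iff_eq_inv, hzz]
    unfold f_dinq
    simp only [inv_eq_one, h2]
    split_ifs <;> ring
  unfold pr
  rw [sum_congr rfl fun g _ => h1 g, ← mul_sum, sum_sub_distrib, sum_ite_eq', sum_ite_eq',
    if_pos (mem_univ _), if_pos (mem_univ _)]
  field_simp

/-- the sum over the squares -/
private theorem sq_f_dinq (z : G) :
    ((1 / (Nat.card G : ℂ)) * ∑ g, f_dinq z (g ^ 2)).re = (rn (1 : G) - rn z) / 2 := by
  classical
  have hn : (Nat.card G : ℂ) ≠ 0 := Nat.cast_ne_zero.2 Nat.card_pos.ne'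
  have h0 : ∀ w : G, ∑ g : G, (if g ^ 2 = w then (1 : ℂ) else 0) = (rn w : ℂ) := by
    intro w
    rw [rn, Nat.card_eq_fintype_card, Fintype.card_subtype, sum_ite, sum_const_zero, add_zero,
      sum_const, nsmul_eq_mul, mul_one]
    push_cast
    rfl
  have h1 : (1 / (Nat.card G : ℂ)) * ∑ g, f_dinq z (g ^ 2) = (((rn (1 : G) - rn z) / 2 : ℝ) : ℂ) := by
    unfold f_dinq
    rw [← mul_sum, sum_sub_distrib, h0, h0]
    push_cast
    field_simp
  rw [h1, Complex.ofReal_re]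

/-- the number `a` -/
private theorem a_dinq (z : G) (hzz : z⁻¹ = z) (φ : G → ℂ) (hφ : IsIrr φ) :
    pr (f_dinq z) φ = ((((φ 1).re - (φ z).re) / 2 : ℝ) : ℂ) ∧ 0 ≤ ((φ 1).re - (φ z).re) / 2 ∧
      ((φ 1).re - (φ z).re) / 2 ≤ (φ 1).re ∧ (0 < ((φ 1).re - (φ z).re) / 2 → φ z ≠ φ 1) := by
  obtain ⟨d, hd, h1⟩ := irr_one φ hφ
  have h2 : (starRingEnd ℂ) (φ z) = φ z := by
    rw [← irr_inv φ hφ z, hzz]
  have h3 : (φ z).im = 0 := Complex.conj_eq_iff_im.1 h2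
  have h4 : ((φ z).re : ℂ) = φ z := Complex.ext (by simp) (by simp [h3])
  have h5 : (φ 1).re = d := by rw [h1, Complex.natCast_re]
  have h6 : ((φ 1).re : ℂ) = φ 1 := by rw [h5, h1]; simp
  have h7 := (Complex.abs_re_le_norm (φ z)).trans (irr_norm φ hφ z)
  rw [abs_le] at h7
  refine ⟨?_, by linarith, by linarith, fun h8 h9 => ?_⟩
  · rw [pr_f_dinq z hzz]
    push_cast
    rw [h4, h6]
  · rw [h9] at h8
    linarith

/-- the characters which are trivial on `y` -/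
private theorem avg_dinq (y : G) (φ : G → ℂ) (hφ : IsIrr φ) (hy : φ y = φ 1) :
    1 ≤ (avg (Subgroup.zpowers y) φ).re := by
  classical
  have h1 := avg_closure φ hφ {y} (fun c hc => by rw [Set.mem_singleton_iff.1 hc, hy])
  have h2 : Subgroup.zpowers y ≤ Subgroup.normalClosure {y} := by
    rw [Subgroup.zpowers_le]
    exact Subgroup.subset_normalClosure rfl
  have h3 : ∀ k ∈ Subgroup.zpowers y, φ k = φ 1 := by
    intro k hk
    have h4 := h1 k (h2 hk) 1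
    rwa [one_mul] at h4
  obtain ⟨d, hd, h5⟩ := irr_one φ hφ
  have h6 : avg (Subgroup.zpowers y) φ = (d : ℂ) := by
    unfold avg
    have h7 : ∀ h : G, (if h ∈ Subgroup.zpowers y then φ h else 0) =
        (if h ∈ Subgroup.zpowers y then (d : ℂ) else 0) := by
      intro h
      by_cases hh : h ∈ Subgroup.zpowers y
      · rw [if_pos hh, if_pos hh, h3 h hh, h5]
      · rw [if_neg hh, if_neg hh]
    have h8 : (Nat.card (Subgroup.zpowers y) : ℂ) ≠ 0 := Nat.cast_ne_zero.2 Nat.card_pos.ne'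
    have h9 : ∑ h : G, (if h ∈ Subgroup.zpowers y then (d : ℂ) else 0) =
        (Nat.card (Subgroup.zpowers y) : ℂ) * d := by
      rw [← sum_filter, sum_const, nsmul_eq_mul]
      congr 2
      rw [Nat.card_eq_fintype_card, Fintype.card_subtype]
    rw [sum_congr rfl fun h _ => h7 h, h9]
    field_simp
  rw [h6, Complex.natCast_re]
  exact_mod_cast hd

theorem inq_D {D : ℝ} {b σ : ℕ} {N : ℕ} {s : Fin N → G} {A S : Subgroup G} {x : G} {P : Subgroup G} {i₁ i₂ iy : Fin N}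
    (h : CD D b σ s A S x P i₁ i₂ iy) (j : Fin N) (hj1 : j ≠ i₁) (hj2 : j ≠ i₂) (hjy : j ≠ iy)
    (hz : ∀ g, s j * g = g * s j) (ho : orderOf (s j) = 2) :
    (genus s - (chi s (s j)).re + rn (1 : G) - rn (s j)) / 2 ≤ 2 * D * b + 24 * (b : ℝ) ^ 3 * (σ : ℝ) ^ 2 + 12 * b * σ := by
  classical
  have hr := h.red
  have hzz : (s j)⁻¹ = s j := by
    have h1 := pow_orderOf_eq_one (s j)
    rw [ho, sq] at h1
    exact inv_eq_of_mul_eq_one_right h1
  have hdeg : ∀ φ ∈ XX G, (φ 1).re ≤ b := by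
    intro φ hφ
    refine (irr_deg φ ((mem_XX φ).1 hφ) A hr.hAc).trans ?_
    exact_mod_cast hr.hAi
  have hpos : ∀ φ ∈ XX G, 1 ≤ (φ 1).re := by
    intro φ hφ
    obtain ⟨d, hd, h1⟩ := irr_one φ ((mem_XX φ).1 hφ)
    rw [h1, Complex.natCast_re]
    exact_mod_cast hd
  obtain ⟨a, ha⟩ : ∃ a : (G → ℂ) → ℝ, ∀ φ, a φ = ((φ 1).re - (φ (s j)).re) / 2 :=
    ⟨fun φ => ((φ 1).re - (φ (s j)).re) / 2, fun φ => rfl⟩
  have hapr : ∀ φ ∈ XX G, pr (f_dinq (s j)) φ = a φ := by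
    intro φ hφ
    rw [ha]
    exact (a_dinq (s j) hzz φ ((mem_XX φ).1 hφ)).1
  obtain ⟨T, hT⟩ : ∃ T : Finset (G → ℂ), T = (XX G).filter (fun φ => φ (s iy) = φ 1) := ⟨_, rfl⟩
  obtain ⟨EX, hEX⟩ : ∃ EX : Finset (G → ℂ),
      EX = (XX G).filter (fun φ => Bad P φ ∨ φ (s iy) = φ 1) := ⟨_, rfl⟩
  have hlb := LB s hr.tup (b : ℝ) hdeg EX (by rw [hEX]; exact filter_subset _ _) a
    (fun φ hφ => by rw [ha]; exact (a_dinq (s j) hzz φ ((mem_XX φ).1 hφ)).2.1)
    (fun φ hφ => by rw [ha]; exact (a_dinq (s j) hzz φ ((mem_XX φ).1 hφ)).2.2.1)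
    (fun φ hφ hE h0 => by
      have hi := (mem_XX φ).1 hφ
      rw [ha] at h0
      have h1 := (a_dinq (s j) hzz φ hi).2.2.2 h0
      rw [hEX, mem_filter, not_and, not_or] at hE
      obtain ⟨h2, h3⟩ := hE hφ
      refine ⟨pos_D h j hj1 hj2 hjy hz ho φ hi h2 h1 h3, ?_⟩
      refine pos_D h j hj1 hj2 hjy hz ho (cj φ) (irr_cj φ hi) ?_ ?_ ?_
      · rintro ⟨g, hg, h4⟩
        exact h2 ⟨g, hg, fun h5 => h4 (by rw [cj, h5, map_zero])⟩
      · intro h4
        exact h1 ((starRingEnd ℂ).injective h4)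
      · intro h4
        exact h3 ((starRingEnd ℂ).injective h4))
  -- the left side
  have hL : ∑ φ ∈ XX G, a φ * (mul s φ + fs φ) =
      (genus s - (chi s (s j)).re + rn (1 : G) - rn (s j)) / 2 := by
    have h1 := sum_mul_pr s hr.tup (f_dinq (s j)) (f_class_dinq (s j) hz) a hapr
    have h2 := sum_fs_pr (f_dinq (s j)) (f_class_dinq (s j) hz) a hapr
    rw [pr_f'_dinq (s j) hzz, Pool.Agent.H82.CO.chi_one] at h1
    rw [sq_f_dinq] at h2
    have h3 : (((genus s : ℂ) - chi s (s j)) / 2).re = (genus s - (chi s (s j)).re) / 2 := by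
      rw [Complex.div_ofNat_re, Complex.sub_re, Complex.ofReal_re]
    rw [h3] at h1
    simp only [mul_add]
    rw [sum_add_distrib, h1, h2]
    ring
  -- the exceptional characters
  have hb0 : (0 : ℝ) ≤ b := Nat.cast_nonneg b
  have hσ0 : (0 : ℝ) ≤ σ := Nat.cast_nonneg σ
  have hbad := exc_sum_sq b A hr.hA hr.hAc hr.hAi P (4 * (σ : ℝ) ^ 2) h.hcz (by positivity)
  have hfix := sum_fixed (Subgroup.zpowers (s iy)) T (by rw [hT]; exact filter_subset _ _)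
    (fun φ hφ => by
      rw [hT, mem_filter] at hφ
      exact avg_dinq (s iy) φ ((mem_XX φ).1 hφ.1) hφ.2)
  have hord : (Nat.card G : ℝ) / Nat.card (Subgroup.zpowers (s iy)) ≤ 2 * σ := by
    rw [Nat.card_zpowers]
    have h1 : od S (s iy) ≤ orderOf (s iy) :=
      Nat.le_of_dvd (orderOf_pos _) (od_dvd_order S (s iy))
    have h2 : (Nat.card G : ℝ) = 2 * Nat.card S * od S (s iy) := by
      exact_mod_cast h.oy.symm
    have h3 : (0 : ℝ) < orderOf (s iy) := by exact_mod_cast orderOf_pos (s iy)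
    rw [div_le_iff₀ h3, h2]
    have h4 : (Nat.card S : ℝ) ≤ σ := by exact_mod_cast hr.hSc
    have h5 : (od S (s iy) : ℝ) ≤ orderOf (s iy) := by exact_mod_cast h1
    have h6 : (0 : ℝ) ≤ od S (s iy) := Nat.cast_nonneg _
    have h7 : (Nat.card S : ℝ) * od S (s iy) ≤ σ * orderOf (s iy) := mul_le_mul h4 h5 h6 hσ0
    linarith
  have hT2 : ∑ φ ∈ T, (φ 1).re ^ 2 ≤ b * (2 * σ) := by
    calc ∑ φ ∈ T, (φ 1).re ^ 2 ≤ ∑ φ ∈ T, (b : ℝ) * (φ 1).re := by
          refine sum_le_sum fun φ hφ => ?_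
          rw [hT, mem_filter] at hφ
          rw [sq]
          exact mul_le_mul_of_nonneg_right (hdeg φ hφ.1) (by linarith [hpos φ hφ.1])
      _ = (b : ℝ) * ∑ φ ∈ T, (φ 1).re := (mul_sum _ _ _).symm
      _ ≤ b * (2 * σ) := mul_le_mul_of_nonneg_left (hfix.trans hord) hb0
  have hsum : ∑ φ ∈ EX, (φ 1).re ^ 2 ≤ (b : ℝ) ^ 3 * (4 * (σ : ℝ) ^ 2) + b * (2 * σ) := by
    have h1 : EX = (XX G).filter (fun φ => Bad P φ) ∪ T := by
      rw [hEX, hT, filter_or]
    have h2 : ∑ φ ∈ EX, (φ 1).re ^ 2 ≤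
        ∑ φ ∈ (XX G).filter (fun φ => Bad P φ), (φ 1).re ^ 2 + ∑ φ ∈ T, (φ 1).re ^ 2 := by
      rw [h1, ← sum_union_inter]
      have h3 : 0 ≤ ∑ φ ∈ (XX G).filter (fun φ => Bad P φ) ∩ T, (φ 1).re ^ 2 :=
        sum_nonneg fun φ _ => sq_nonneg _
      linarith
    have h4 : ∑ φ ∈ (XX G).filter (fun φ => Bad P φ), (φ 1).re ^ 2 ≤ (b : ℝ) ^ 3 * (4 * (σ : ℝ) ^ 2) := by
      convert hbad
    linarith
  have hN4 : (N : ℝ) ≤ 5 := by
    rcases hr.hN with h1 | h1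
    · rw [h1]; norm_num
    · rw [h1]; norm_num
  have hS0 : 0 ≤ ∑ φ ∈ EX, (φ 1).re ^ 2 := sum_nonneg fun φ _ => sq_nonneg _
  have hq : (b : ℝ) * (2 * (quadInv s).re) ≤ b * (2 * D) := by
    refine mul_le_mul_of_nonneg_left ?_ hb0
    have := hr.hd
    linarith
  have hE6 : ((N : ℝ) + 1) * ∑ φ ∈ EX, (φ 1).re ^ 2 ≤
      6 * ((b : ℝ) ^ 3 * (4 * (σ : ℝ) ^ 2) + b * (2 * σ)) :=
    mul_le_mul (by linarith) hsum hS0 (by norm_num)
  rw [← hL]
  refine hlb.trans ?_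
  have h9 : (6 : ℝ) * ((b : ℝ) ^ 3 * (4 * (σ : ℝ) ^ 2) + b * (2 * σ)) =
      24 * (b : ℝ) ^ 3 * (σ : ℝ) ^ 2 + 12 * b * σ := by ring
  linarith

end Pool.Agent.H92.LG
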