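import Pool.Agent.H92.LG.Defs
import Pool.Agent.H92.LG.SetD
import Pool.Agent.H82.FIN.Od
import Pool.Agent.H82.CO.Fix
import Pool.Agent.H82.CO.Main
import Pool.Agent.H82.SQ.Main

set_option autoImplicit false

/-!
PROJECT LG (MP_bf82d2_ag, LinearGrowth; copy of the module of project FIN with an arbitrary bound D), module DNum.
The left side in case D, central involution `z = s j`.
PROOF. `genus_eq`; `chi_re` (H82.CO.Fix; `indF`, `fP_eq`): `Re chi s z = 1 - (1/2) ∑ i, indF (s i) z`, `indF (s i) z ≥ 0`, `indF (s j) z = n/2` (`z` central, `z ∈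
⟨z⟩`, `m_j = 2`).  So `genus s - Re chi s z ≥ n (nu s - 2)/2 + n/4`, `nu s ≥ (1 - 1/m_1) + (1 - 1/m_2) + (1 - 1/m_y) + 1/2`, `m_i = 2 o_i` (`i = i₁, i₂`, `o_i = orderOf (s
i ^ 2)`; `od_mul`), `n/m_y ≤ n/od S (s iy) = 2 |S| ≤ 2 σ`.  `rn_z_le`: `h ∉ P`: `n/2` elements; `h ∈ P`, `h^2 = z ∈ S`: the images in the cyclic
group `P/S` (generated by `s iy`) are of square `1`: at most two cosets of `S`.
-/

namespace Pool.Agent.H92.LG

open Finset Module
open Pool.Agent.H93.Hup (Inv MinInv)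
open Pool.Agent.H52.VC (lam subR)
open Pool.Agent.H82.CO (chi quadInv genus nu eps zeta)
open Pool.Agent.H82.FIN

variable {G : Type} [Group G] [Fintype G]

theorem DNum_mem {D : ℝ} {b σ : ℕ} {N : ℕ} {s : Fin N → G} {A S : Subgroup G} {x : G} {P : Subgroup G} {i₁ i₂ iy : Fin N}
    (h : CD D b σ s A S x P i₁ i₂ iy) (p : G) (hp : p ∈ P) (hp2 : p ^ 2 ∈ S) :
    p ∈ S ∨ p * (s iy ^ (od S (s iy) / 2))⁻¹ ∈ S := by
  obtain ⟨k, hk⟩ := h.hPy p hp
  have hS := h.red.hS
  set y := s iy with hy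
  have h1 : y ^ (2 * k) ∈ S := by
    have h2 : y ^ (2 * k) = (y ^ k * (p * (y ^ k)⁻¹) * (y ^ k)⁻¹)⁻¹ * (p * (y ^ k)⁻¹)⁻¹ * p ^ 2 := by
      rw [two_mul, pow_add]
      group
    rw [h2]
    exact S.mul_mem (S.mul_mem (S.inv_mem (hS.conj_mem _ hk _)) (S.inv_mem hk)) hp2
  rw [od_dvd] at h1
  obtain ⟨t, ht⟩ := h1
  rcases Nat.even_or_odd t with ⟨r, hr⟩ | ⟨r, hr⟩
  · left
    have h3 : y ^ k ∈ S := by
      rw [od_dvd]
      refine ⟨r, ?_⟩
      rw [hr] at ht
      have : od S y * (r + r) = 2 * (od S y * r) := by ring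
      omega
    have h4 : p = p * (y ^ k)⁻¹ * y ^ k := by group
    rw [h4]
    exact S.mul_mem hk h3
  · right
    have h5 : k = od S y * r + od S y / 2 := by
      rw [hr] at ht
      have : od S y * (2 * r + 1) = 2 * (od S y * r) + od S y := by ring
      omega
    have h6 : y ^ (od S y * r) ∈ S := by
      rw [od_dvd]
      exact ⟨r, rfl⟩
    have h7 : p * (y ^ (od S y / 2))⁻¹ = p * (y ^ k)⁻¹ * y ^ (od S y * r) := by
      have h8 : (y ^ k)⁻¹ * y ^ (od S y * r) = (y ^ (od S y / 2))⁻¹ := by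
        conv_lhs => rw [h5, pow_add]
        rw [mul_inv_rev, inv_mul_cancel_right]
      rw [mul_assoc, h8]
    rw [h7]
    exact S.mul_mem hk h6

theorem rn_z_le {D : ℝ} {b σ : ℕ} {N : ℕ} {s : Fin N → G} {A S : Subgroup G} {x : G} {P : Subgroup G} {i₁ i₂ iy : Fin N}
    (h : CD D b σ s A S x P i₁ i₂ iy) (z : G) (hz : z ∈ S) : rn z ≤ (Nat.card G : ℝ) / 2 + 2 * σ := by
  classical
  set w := s iy ^ (od S (s iy) / 2) with hw
  have h1 : (univ.filter fun g : G => g ^ 2 = z) ⊆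
      (univ.filter fun g : G => g ∉ P) ∪ ((univ.filter fun g : G => g ∈ S) ∪
        (univ.filter fun g : G => g * w⁻¹ ∈ S)) := by
    intro g hg
    rw [mem_filter] at hg
    by_cases hgP : g ∈ P
    · rcases DNum_mem h g hgP (by rw [hg.2]; exact hz) with h2 | h2
      · exact mem_union_right _ (mem_union_left _ (mem_filter.2 ⟨mem_univ _, h2⟩))
      · exact mem_union_right _ (mem_union_right _ (mem_filter.2 ⟨mem_univ _, h2⟩))
    · exact mem_union_left _ (mem_filter.2 ⟨mem_univ _, hgP⟩)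
  have h2 := (card_le_card h1).trans ((card_union_le _ _).trans
    (Nat.add_le_add_left (card_union_le _ _) _))
  have hS1 : (univ.filter fun g : G => g ∈ S).card = Nat.card S := by
    rw [Nat.card_eq_fintype_card, Fintype.card_subtype]
  have hS2 : (univ.filter fun g : G => g * w⁻¹ ∈ S).card = Nat.card S := by
    rw [← hS1]
    refine card_bij (fun g _ => g * w⁻¹) (fun g hg => ?_) (fun g _ g' _ hgg => ?_) (fun g hg => ?_)
    · rw [mem_filter] at hg ⊢
      exact ⟨mem_univ _, hg.2⟩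
    · exact mul_right_cancel hgg
    · rw [mem_filter] at hg
      refine ⟨g * w, mem_filter.2 ⟨mem_univ _, ?_⟩, ?_⟩
      · rw [mul_inv_cancel_right]; exact hg.2
      · rw [mul_inv_cancel_right]
  have hP1 : (univ.filter fun g : G => g ∈ P).card = Nat.card P := by
    rw [Nat.card_eq_fintype_card, Fintype.card_subtype]
  have hP2 : (univ.filter fun g : G => g ∈ P).card + (univ.filter fun g : G => g ∉ P).card
      = Nat.card G := by
    rw [Finset.card_filter_add_card_filter_not, card_univ, Nat.card_eq_fintype_card]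
  have hP3 : Nat.card P * 2 = Nat.card G := by
    rw [← h.hPi]; exact P.card_mul_index
  have h3 : rn z = ((univ.filter fun g : G => g ^ 2 = z).card : ℝ) := by
    rw [rn, Nat.card_eq_fintype_card, Fintype.card_subtype]
  have h4 : 2 * (univ.filter fun g : G => g ^ 2 = z).card ≤ Nat.card G + 4 * σ := by
    have := h.red.hSc
    omega
  have h5 : (2 : ℝ) * ((univ.filter fun g : G => g ^ 2 = z).card : ℝ) ≤ (Nat.card G : ℝ) + 4 * σ := by
    exact_mod_cast h4
  rw [h3]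
  linarith

theorem num_D {D : ℝ} {b σ : ℕ} {N : ℕ} {s : Fin N → G} {A S : Subgroup G} {x : G} {P : Subgroup G} {i₁ i₂ iy : Fin N}
    (h : CD D b σ s A S x P i₁ i₂ iy) (j : Fin N) (hj1 : j ≠ i₁) (hj2 : j ≠ i₂) (hjy : j ≠ iy)
    (hz : ∀ g, s j * g = g * s j) (ho : orderOf (s j) = 2) :
    (Nat.card G : ℝ) / 2 * (3 / 2 - 1 / (2 * (orderOf (s i₁ ^ 2) : ℝ)) - 1 / (2 * (orderOf (s i₂ ^ 2) : ℝ))) - σ
      + (Nat.card G : ℝ) / 4 ≤ genus s - (chi s (s j)).re := by
  classical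
  have hn : (0 : ℝ) < Nat.card G := by exact_mod_cast Nat.card_pos
  have hzne : s j ≠ 1 := fun h0 => by rw [h0, orderOf_one] at ho; omega
  rw [Pool.Agent.H82.CO.genus_eq, Pool.Agent.H82.CO.chi_re s hzne]
  -- the fixed points
  have hf0 : ∀ c g : G, 0 ≤ Pool.Agent.H82.CO.indF c g := fun c g => by
    rw [Pool.Agent.H82.CO.indF]
    refine mul_nonneg (by positivity) (sum_nonneg fun x _ => ?_)
    rw [Pool.Agent.H82.CO.fP]
    exact sum_nonneg fun k _ => by split_ifs <;> norm_num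
  have hfj : Pool.Agent.H82.CO.indF (s j) (s j) = (Nat.card G : ℝ) / 2 := by
    rw [Pool.Agent.H82.CO.indF, ho]
    have h1 : ∀ x : G, Pool.Agent.H82.CO.fP (s j) (x⁻¹ * s j * x) = 1 := fun x => by
      rw [mul_assoc, hz, inv_mul_cancel_left]
      have h2 := Pool.Agent.H82.CO.fP_pow (s j) (k := 1) (by rw [ho]; norm_num) (by norm_num)
      rwa [pow_one] at h2
    rw [sum_congr rfl fun x _ => h1 x, sum_const, card_univ, nsmul_eq_mul,
      ← Nat.card_eq_fintype_card]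
    push_cast
    ring
  have hf1 : (Nat.card G : ℝ) / 2 ≤ ∑ i, Pool.Agent.H82.CO.indF (s i) (s j) := by
    rw [← hfj]
    exact single_le_sum (f := fun i => Pool.Agent.H82.CO.indF (s i) (s j))
      (fun i _ => hf0 _ _) (mem_univ j)
  -- the sum of the four terms
  have hnu0 : ∀ i : Fin N, (0 : ℝ) ≤ 1 - 1 / (orderOf (s i) : ℝ) := fun i => by
    have h1 : (1 : ℝ) ≤ orderOf (s i) := by exact_mod_cast orderOf_pos (s i)
    have h2 : 1 / (orderOf (s i) : ℝ) ≤ 1 := by
      rw [div_le_one (by linarith)]; exact h1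
    linarith
  have hnu : (1 - 1 / (orderOf (s i₁) : ℝ)) + ((1 - 1 / (orderOf (s i₂) : ℝ)) +
      ((1 - 1 / (orderOf (s iy) : ℝ)) + (1 - 1 / (orderOf (s j) : ℝ)))) ≤ nu s := by
    have h1 := sum_le_sum_of_subset_of_nonneg (s := {i₁, i₂, iy, j}) (t := (univ : Finset (Fin N)))
      (f := fun i => (1 - 1 / (orderOf (s i) : ℝ))) (subset_univ _) (fun i _ _ => hnu0 i)
    rw [sum_insert (by simp [h.h12, h.h1y, hj1.symm]), sum_insert (by simp [h.h2y, hj2.symm]),
      sum_insert (by simp [hjy.symm]), sum_singleton] at h1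
    exact h1
  have hm1 : (orderOf (s i₁) : ℝ) = 2 * (orderOf (s i₁ ^ 2) : ℝ) := by
    have h1 := od_mul S (s i₁)
    rw [h.o1] at h1
    rw [← h1]
    push_cast
    ring
  have hm2 : (orderOf (s i₂) : ℝ) = 2 * (orderOf (s i₂ ^ 2) : ℝ) := by
    have h1 := od_mul S (s i₂)
    rw [h.o2] at h1
    rw [← h1]
    push_cast
    ring
  have hmy : (Nat.card G : ℝ) / 2 * (1 / (orderOf (s iy) : ℝ)) ≤ σ := by
    have h1 : (od S (s iy) : ℝ) ≤ orderOf (s iy) := by
      exact_mod_cast Nat.le_of_dvd (orderOf_pos _) (od_dvd_order S (s iy))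
    have h2 : (0 : ℝ) < od S (s iy) := by exact_mod_cast od_pos S (s iy)
    have h3 : 2 * (Nat.card S : ℝ) * od S (s iy) = Nat.card G := by exact_mod_cast h.oy
    have h4 : (Nat.card S : ℝ) ≤ σ := by exact_mod_cast h.red.hSc
    have h5 : 1 / (orderOf (s iy) : ℝ) ≤ 1 / (od S (s iy) : ℝ) := one_div_le_one_div_of_le h2 h1
    calc (Nat.card G : ℝ) / 2 * (1 / (orderOf (s iy) : ℝ))
        ≤ (Nat.card G : ℝ) / 2 * (1 / (od S (s iy) : ℝ)) :=
          mul_le_mul_of_nonneg_left h5 (by linarith)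
      _ = Nat.card S := by
          rw [← h3]
          field_simp
      _ ≤ σ := h4
  rw [ho, hm1, hm2] at hnu
  push_cast at hnu
  have hk := mul_le_mul_of_nonneg_left hnu (by linarith : (0 : ℝ) ≤ (Nat.card G : ℝ) / 2)
  nlinarith [hk, hmy, hf1]


end Pool.Agent.H92.LG
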