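import Pool.Agent.H92.LG.Defs
import Pool.Agent.H92.LG.SetD
import Pool.Agent.H92.LG.Cent
import Pool.Agent.H92.LG.CaseD2
import Pool.Agent.H92.LG.DInq
import Pool.Agent.H92.LG.DNum
import Pool.Agent.H82.FIN.RtS

set_option autoImplicit false

/-!
PROJECT LG (MP_bf82d2_ag, LinearGrowth; copy of the module of project FIN with an arbitrary bound D), module CaseD.
Case D.
PROOF. `n ≤ 60 σ`, or `set_D`: `n ≤ 2 b σ` or `CD`; `exists_j`; `n ≤ C` (`cent`) or `z = s j` is central; `o = orderOf z ≥ 3`: `case_D2`; `o = 2`: `inq_D`,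
`num_D`, `rn_z_le`: with `C3` the right side of `inq_D`: `(1/2) ((n/2)(3/2 - 1/(2 o_1) - 1/(2 o_2)) - σ + n/4 + rn 1 - n/2 - 2 σ) ≤ C3`, i.e. `(n/4)(1 - 1/o_1) + (n/4)(1 -
1/o_2) + rn 1 ≤ 2 C3 + 3 σ`.  `o_1 ≥ 2`: `n/8 ≤ 2 C3 + 3 σ`.  `o_1 = 1`: `s i₁ ^ 2 = 1`, `s i₁ ∉ P`, `card_le_cz_rn`: `n ≤ 4 σ^2 rn 1 ≤ 4 σ^2 (2 C3 + 3 σ)`.
-/

namespace Pool.Agent.H92.LG

open Finset Module
open Pool.Agent.H93.Hup (Inv MinInv)
open Pool.Agent.H52.VC (lam subR)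
open Pool.Agent.H82.CO (chi quadInv genus nu eps zeta)
open Pool.Agent.H82.FIN

theorem rn_nonneg {G : Type} [Group G] [Fintype G] (z : G) : 0 ≤ rn z := Nat.cast_nonneg _

theorem case_D_inv {G : Type} [Group G] [Fintype G] {D : ℝ} {b σ : ℕ} {N : ℕ} {s : Fin N → G} {A S : Subgroup G} {x : G}
    {P : Subgroup G} {i₁ i₂ iy : Fin N} (h : CD D b σ s A S x P i₁ i₂ iy) (j : Fin N) (hj1 : j ≠ i₁) (hj2 : j ≠ i₂)
    (hjy : j ≠ iy) (hz : ∀ g, s j * g = g * s j) (ho : orderOf (s j) = 2) :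
    (Nat.card G : ℝ) ≤ (8 + 4 * (σ : ℝ) ^ 2) *
      (2 * (2 * D * b + 24 * (b : ℝ) ^ 3 * (σ : ℝ) ^ 2 + 12 * b * σ) + 3 * σ) := by
  have e1 := inq_D h j hj1 hj2 hjy hz ho
  have e2 := num_D h j hj1 hj2 hjy hz ho
  have e3 := rn_z_le h (s j) (h.hj j hj1 hj2 hjy)
  have e4 := rn_nonneg (1 : G)
  set C3 : ℝ := 2 * D * b + 24 * (b : ℝ) ^ 3 * (σ : ℝ) ^ 2 + 12 * b * σ with hC3
  set n : ℝ := (Nat.card G : ℝ) with hn
  have hn0 : 0 ≤ n := Nat.cast_nonneg _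
  have hσ : (0 : ℝ) ≤ σ := Nat.cast_nonneg _
  have hD0 : 0 ≤ D := h.red.hD
  have hC0 : 0 ≤ C3 := by positivity
  have ho1 : 0 < orderOf (s i₁ ^ 2) := orderOf_pos _
  have ho2 : 0 < orderOf (s i₂ ^ 2) := orderOf_pos _
  have key : ∀ o : ℕ, 0 < o → n / 4 * (1 / (o : ℝ)) ≤ n / 4 := by
    intro o ho
    have h1 : (1 : ℝ) ≤ o := by exact_mod_cast ho
    have h2 : 1 / (o : ℝ) ≤ 1 := by rw [div_le_one (by linarith)]; exact h1
    have h3 : 0 ≤ n / 4 := by positivity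
    nlinarith
  have f1 : n / 2 * (3 / 2 - 1 / (2 * (orderOf (s i₁ ^ 2) : ℝ)) - 1 / (2 * (orderOf (s i₂ ^ 2) : ℝ))) =
      3 * n / 4 - n / 4 * (1 / (orderOf (s i₁ ^ 2) : ℝ)) - n / 4 * (1 / (orderOf (s i₂ ^ 2) : ℝ)) := by
    have h1 : (orderOf (s i₁ ^ 2) : ℝ) ≠ 0 := by exact_mod_cast ho1.ne'
    have h2 : (orderOf (s i₂ ^ 2) : ℝ) ≠ 0 := by exact_mod_cast ho2.ne'
    field_simp
    ring
  rw [f1] at e2
  have k2 := key _ ho2
  by_cases h1 : s i₁ ^ 2 = 1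
  · have k1 := key _ ho1
    have g1 := card_le_cz_rn (s i₁) h1
    have g2 := h.hcz (s i₁) h.h1
    have g3 : rn (1 : G) ≤ 2 * C3 + 3 * σ := by linarith
    have g4 : cz (s i₁) * rn (1 : G) ≤ 4 * (σ : ℝ) ^ 2 * rn (1 : G) := mul_le_mul_of_nonneg_right g2 e4
    have g5 : 4 * (σ : ℝ) ^ 2 * rn (1 : G) ≤ 4 * (σ : ℝ) ^ 2 * (2 * C3 + 3 * σ) :=
      mul_le_mul_of_nonneg_left g3 (by positivity)
    nlinarith
  · have h2 : 2 ≤ orderOf (s i₁ ^ 2) := by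
      have h3 : orderOf (s i₁ ^ 2) ≠ 1 := by
        rw [Ne, orderOf_eq_one_iff]
        exact h1
      omega
    have h3 : n / 4 * (1 / (orderOf (s i₁ ^ 2) : ℝ)) ≤ n / 8 := by
      have h4 : (2 : ℝ) ≤ orderOf (s i₁ ^ 2) := by exact_mod_cast h2
      have h5 : 1 / (orderOf (s i₁ ^ 2) : ℝ) ≤ 1 / 2 := one_div_le_one_div_of_le (by norm_num) h4
      have h6 : 0 ≤ n / 4 := by positivity
      nlinarith
    have h7 : n ≤ 8 * (2 * C3 + 3 * σ) := by linarith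
    have h8 : 0 ≤ 4 * (σ : ℝ) ^ 2 * (2 * C3 + 3 * σ) := by positivity
    nlinarith

theorem case_D (D : ℝ) (b σ : ℕ) {G : Type} [Group G] [Fintype G] {N : ℕ} (s : Fin N → G) (A S : Subgroup G) (x : G)
    (h : Red D b σ s A S x) (hnu : nuM S s < 2) :
    (Nat.card G : ℝ) ≤ 60 * σ + 2 * b * σ + 4 * σ * (σ + 2 * b * D) +
      (σ : ℝ) ^ 2 * (2 * D * b + 24 * (b : ℝ) ^ 3 * (σ : ℝ) ^ 2 + σ) +
      (8 + 4 * (σ : ℝ) ^ 2) * (2 * (2 * D * b + 24 * (b : ℝ) ^ 3 * (σ : ℝ) ^ 2 + 12 * b * σ) + 3 * σ) := by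
  have hD0 : 0 ≤ D := h.hD
  have p1 : (0 : ℝ) ≤ 60 * σ := by positivity
  have p2 : (0 : ℝ) ≤ 2 * b * σ := by positivity
  have p3 : (0 : ℝ) ≤ 4 * σ * (σ + 2 * b * D) := by positivity
  have p4 : (0 : ℝ) ≤ (σ : ℝ) ^ 2 * (2 * D * b + 24 * (b : ℝ) ^ 3 * (σ : ℝ) ^ 2 + σ) := by positivity
  have p5 : (0 : ℝ) ≤ (8 + 4 * (σ : ℝ) ^ 2) *
    (2 * (2 * D * b + 24 * (b : ℝ) ^ 3 * (σ : ℝ) ^ 2 + 12 * b * σ) + 3 * σ) := by positivity
  by_cases hn : 60 * σ < Nat.card G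
  · rcases set_D D b σ s A S x h hnu hn with h1 | ⟨P, i₁, i₂, iy, h1⟩
    · linarith
    · obtain ⟨j, hj1, hj2, hjy⟩ := exists_j h1
      by_cases hc : 4 * σ * (σ + 2 * b * D) < (Nat.card G : ℝ)
      · have hz := cent h1 hc j hj1 hj2 hjy
        have ho1 : orderOf (s j) ≠ 1 := by
          rw [Ne, orderOf_eq_one_iff]
          exact h1.red.tup.ne j
        have ho0 : 0 < orderOf (s j) := orderOf_pos _
        by_cases ho : orderOf (s j) = 2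
        · have := case_D_inv h1 j hj1 hj2 hjy hz ho
          linarith
        · have := case_D2 h1 j hj1 hj2 hjy hz (by omega)
          linarith
      · push Not at hc
        linarith
  · push Not at hn
    have : (Nat.card G : ℝ) ≤ 60 * σ := by exact_mod_cast hn
    linarith

end Pool.Agent.H92.LG
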