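import Pool.Agent.H92.LG.Defs
import Pool.Agent.H92.LG.PosE
import Pool.Agent.H82.FIN.LB
import Pool.Agent.H82.FIN.CTj
import Pool.Agent.H82.FIN.Exc
import Pool.Agent.H82.FIN.VQa
import Pool.Agent.H82.FIN.VQb
import Pool.Agent.H82.CO.Main

set_option autoImplicit false

/-!
PROJECT LG (MP_bf82d2_ag, LinearGrowth; copy of the module of project FIN with an arbitrary bound D), module EInq.
The inequality of case E.
PROOF. `f g = n [g = 1] - (n/|S|) [g ∈ S]`, a class function, `pr f φ = φ 1 - avg S φ =: a φ`, real, `0 ≤ a φ ≤ φ 1` (`avg_nat`;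
`φ (k⁻¹)`: reindex).  `LB` with `b`, `EX = ` bad characters of `P`: for `φ` good with `a φ > 0`: `avg S φ = 0` (`avg_normal`), `pos_E`; `cj
φ` is irreducible (`irr_cj`), good, `avg S (cj φ) = conj 0 = 0`: `pos_E` again.  `∑ a (mul + fs) = Re pr (chi s) f + Re (1/n) ∑ f(g^2)` (`sum_mul_pr`,
`sum_fs_pr`), `pr (chi s) f = chi s 1 - VQ S s 1 = genus s - 1` (`chi_one`; `VQ S s 1 = 1`: from `h.hV`), `(1/n) ∑ f(g^2) = rn 1 - rS S / |S|`.
`2 Re quadInv ≤ 2 (N - 3) ≤ 4`, `N + 1 ≤ 6`, `exc_sum_sq` with `γ = 48 σ^2`.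
-/

namespace Pool.Agent.H92.LG

open Finset Module
open Pool.Agent.H93.Hup (Inv MinInv)
open Pool.Agent.H52.VC (lam subR)
open Pool.Agent.H82.CO (chi quadInv genus nu eps zeta)
open Pool.Agent.H82.FIN

variable {G : Type} [Group G] [Fintype G]

open Classical in
/-- the class function `n [g = 1] - (n/|S|) [g ∈ S]` -/
private noncomputable def f_einq (S : Subgroup G) (g : G) : ℂ :=
  (Nat.card G : ℂ) * ((if g = 1 then 1 else 0) - (1 / (Nat.card S : ℂ)) * (if g ∈ S then 1 else 0))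

private theorem f_class_einq (S : Subgroup G) (hS : S.Normal) (g x : G) :
    f_einq S (x * g * x⁻¹) = f_einq S g := by
  classical
  have h1 : x * g * x⁻¹ = 1 ↔ g = 1 := conj_eq_one_iff
  have h2 : x * g * x⁻¹ ∈ S ↔ g ∈ S := (hS.mem_comm_iff).trans (by rw [← mul_assoc, inv_mul_cancel, one_mul])
  unfold f_einq
  simp only [h1, h2]

private theorem pr_f_einq (S : Subgroup G) (φ : G → ℂ) :
    pr (f_einq S) φ = φ 1 - avg S φ := by
  classical
  have hn : (Nat.card G : ℂ) ≠ 0 := Nat.cast_ne_zero.2 Nat.card_pos.ne'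
  have h1 : ∀ g : G, f_einq S g * φ g⁻¹ = (Nat.card G : ℂ) *
      ((if g = 1 then φ g⁻¹ else 0) - (1 / (Nat.card S : ℂ)) * (if g ∈ S then φ g⁻¹ else 0)) := by
    intro g
    unfold f_einq
    split_ifs <;> ring
  have h2 : ∑ g : G, (if g ∈ S then φ g⁻¹ else 0) = ∑ g : G, (if g ∈ S then φ g else 0) := by
    rw [← Equiv.sum_comp (Equiv.inv G) (fun g => if g ∈ S then φ g else 0)]
    refine sum_congr rfl fun g _ => ?_
    simp only [Equiv.inv_apply, inv_mem_iff]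
  unfold pr avg
  rw [sum_congr rfl fun g _ => h1 g, ← mul_sum, sum_sub_distrib, sum_ite_eq', if_pos (mem_univ _), inv_one,
    ← mul_sum, h2]
  field_simp

private theorem pr_f'_einq (S : Subgroup G) (k : G → ℂ) :
    pr k (f_einq S) = k 1 - avg S k := by
  classical
  have hn : (Nat.card G : ℂ) ≠ 0 := Nat.cast_ne_zero.2 Nat.card_pos.ne'
  have h1 : ∀ g : G, k g * f_einq S g⁻¹ = (Nat.card G : ℂ) *
      ((if g = 1 then k g else 0) - (1 / (Nat.card S : ℂ)) * (if g ∈ S then k g else 0)) := by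
    intro g
    unfold f_einq
    simp only [inv_eq_one, inv_mem_iff]
    split_ifs <;> ring
  unfold pr avg
  rw [sum_congr rfl fun g _ => h1 g, ← mul_sum, sum_sub_distrib, sum_ite_eq', if_pos (mem_univ _), ← mul_sum]
  field_simp

private theorem sq_f_einq (S : Subgroup G) :
    ((1 / (Nat.card G : ℂ)) * ∑ g, f_einq S (g ^ 2)).re = rn (1 : G) - rS S / Nat.card S := by
  classical
  have hn : (Nat.card G : ℂ) ≠ 0 := Nat.cast_ne_zero.2 Nat.card_pos.ne'
  have h0 : ∑ g : G, (if g ^ 2 = 1 then (1 : ℂ) else 0) = (rn (1 : G) : ℂ) := by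
    rw [rn, Nat.card_eq_fintype_card, Fintype.card_subtype, sum_ite, sum_const_zero, add_zero,
      sum_const, nsmul_eq_mul, mul_one]
    push_cast
    rfl
  have h00 : ∑ g : G, (if g ^ 2 ∈ S then (1 : ℂ) else 0) = (rS S : ℂ) := by
    rw [rS, Nat.card_eq_fintype_card, Fintype.card_subtype, sum_ite, sum_const_zero, add_zero,
      sum_const, nsmul_eq_mul, mul_one]
    push_cast
    rfl
  have h1 : (1 / (Nat.card G : ℂ)) * ∑ g, f_einq S (g ^ 2) = (((rn (1 : G) - rS S / Nat.card S) : ℝ) : ℂ) := by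
    unfold f_einq
    rw [← mul_sum, sum_sub_distrib, h0, ← mul_sum, h00]
    push_cast
    field_simp
  rw [h1, Complex.ofReal_re]

private theorem a_einq (S : Subgroup G) (φ : G → ℂ) (hφ : IsIrr φ) :
    pr (f_einq S) φ = (((φ 1).re - (avg S φ).re : ℝ) : ℂ) ∧ 0 ≤ (φ 1).re - (avg S φ).re ∧
      (φ 1).re - (avg S φ).re ≤ (φ 1).re := by
  obtain ⟨d, hd, h1⟩ := irr_one φ hφ
  obtain ⟨m, h2, h3⟩ := avg_nat φ hφ S
  have h5 : (φ 1).re = d := by rw [h1, Complex.natCast_re]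
  have h6 : (avg S φ).re = m := by rw [h2, Complex.natCast_re]
  have h7 : (0 : ℝ) ≤ m := Nat.cast_nonneg m
  rw [h5] at h3
  refine ⟨?_, by rw [h5, h6]; linarith, by rw [h6]; linarith⟩
  rw [pr_f_einq, h5, h6, h1, h2]
  push_cast
  rfl

private theorem avg_cj_einq (S : Subgroup G) (φ : G → ℂ) : avg S (cj φ) = (starRingEnd ℂ) (avg S φ) := by
  classical
  unfold avg cj
  rw [map_mul, map_sum, map_div₀, map_one, map_natCast]
  congr 1
  refine sum_congr rfl fun g _ => ?_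
  by_cases h : g ∈ S
  · rw [if_pos h, if_pos h]
  · rw [if_neg h, if_neg h, map_zero]

theorem inq_E {D : ℝ} {b σ : ℕ} {N : ℕ} {s : Fin N → G} {A S : Subgroup G} {x : G} {P : Subgroup G} (h : CE D b σ s A S x P) :
    genus s - 1 + rn (1 : G) - rS S / Nat.card S ≤ 2 * D * b + 288 * (b : ℝ) ^ 3 * (σ : ℝ) ^ 2 := by
  classical
  have hr := h.red
  have hdeg : ∀ φ ∈ XX G, (φ 1).re ≤ b := by
    intro φ hφ
    refine (irr_deg φ ((mem_XX φ).1 hφ) A hr.hAc).trans ?_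
    exact_mod_cast hr.hAi
  obtain ⟨a, ha⟩ : ∃ a : (G → ℂ) → ℝ, ∀ φ, a φ = (φ 1).re - (avg S φ).re :=
    ⟨fun φ => (φ 1).re - (avg S φ).re, fun φ => rfl⟩
  have hapr : ∀ φ ∈ XX G, pr (f_einq S) φ = a φ := by
    intro φ hφ
    rw [ha]
    exact (a_einq S φ ((mem_XX φ).1 hφ)).1
  obtain ⟨EX, hEX⟩ : ∃ EX : Finset (G → ℂ), EX = (XX G).filter (fun φ => Bad P φ) := ⟨_, rfl⟩
  have hlb := LB s hr.tup (b : ℝ) hdeg EX (by rw [hEX]; exact filter_subset _ _) a
    (fun φ hφ => by rw [ha]; exact (a_einq S φ ((mem_XX φ).1 hφ)).2.1)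
    (fun φ hφ => by rw [ha]; exact (a_einq S φ ((mem_XX φ).1 hφ)).2.2)
    (fun φ hφ hE h0 => by
      have hi := (mem_XX φ).1 hφ
      rw [ha] at h0
      have hav : avg S φ = 0 := by
        rcases avg_normal φ hi S hr.hS with h1 | ⟨h1, -⟩
        · exact h1
        · rw [h1, sub_self] at h0
          exact absurd h0 (lt_irrefl _)
      rw [hEX, mem_filter, not_and] at hE
      have h2 := hE hφ
      refine ⟨pos_E h φ hi h2 hav, pos_E h (cj φ) (irr_cj φ hi) ?_ ?_⟩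
      · rintro ⟨g, hg, h4⟩
        exact h2 ⟨g, hg, fun h5 => h4 (by rw [cj, h5, map_zero])⟩
      · rw [avg_cj_einq, hav, map_zero])
  have hL : ∑ φ ∈ XX G, a φ * (mul s φ + fs φ) = genus s - 1 + rn (1 : G) - rS S / Nat.card S := by
    have h1 := sum_mul_pr s hr.tup (f_einq S) (f_class_einq S hr.hS) a hapr
    have h2 := sum_fs_pr (f_einq S) (f_class_einq S hr.hS) a hapr
    rw [pr_f'_einq S, Pool.Agent.H82.CO.chi_one] at h1
    rw [sq_f_einq] at h2
    have h3 : avg S (chi s) = 1 := by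
      have h5 : avg S (chi s) = VQ S s 1 := by
        unfold avg VQ
        simp only [one_mul]
      rw [h5]
      exact (h.hV 1).2 P.one_mem
    rw [h3, Complex.sub_re, Complex.ofReal_re, Complex.one_re] at h1
    simp only [mul_add]
    rw [sum_add_distrib, h1, h2]
    ring
  have hb0 : (0 : ℝ) ≤ b := Nat.cast_nonneg b
  have hbad := exc_sum_sq b A hr.hA hr.hAc hr.hAi P (48 * (σ : ℝ) ^ 2) h.hcz (by positivity)
  have hsum : ∑ φ ∈ EX, (φ 1).re ^ 2 ≤ (b : ℝ) ^ 3 * (48 * (σ : ℝ) ^ 2) := by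
    rw [hEX]
    convert hbad
  have hN4 : (N : ℝ) ≤ 5 := by
    rcases hr.hN with h1 | h1
    · rw [h1]; norm_num
    · rw [h1]; norm_num
  have hS0 : 0 ≤ ∑ φ ∈ EX, (φ 1).re ^ 2 := sum_nonneg fun φ _ => sq_nonneg _
  have hq : (b : ℝ) * (2 * (quadInv s).re) ≤ b * (2 * D) := by
    refine mul_le_mul_of_nonneg_left ?_ hb0
    have := hr.hd
    linarith
  have hE6 : ((N : ℝ) + 1) * ∑ φ ∈ EX, (φ 1).re ^ 2 ≤ 6 * ((b : ℝ) ^ 3 * (48 * (σ : ℝ) ^ 2)) :=
    mul_le_mul (by linarith) hsum hS0 (by norm_num)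
  rw [← hL]
  refine hlb.trans ?_
  have h9 : (6 : ℝ) * ((b : ℝ) ^ 3 * (48 * (σ : ℝ) ^ 2)) = 288 * (b : ℝ) ^ 3 * (σ : ℝ) ^ 2 := by ring
  linarith

end Pool.Agent.H92.LG
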