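import Pool.Agent.H92.LG.Defs
import Pool.Agent.H82.FIN.Tri
import Pool.Agent.H82.FIN.Od

set_option autoImplicit false

/-!
PROJECT LG (MP_bf82d2_ag, LinearGrowth; copy of the module of project FIN with an arbitrary bound D), module TriE.
Case E, `L = 1`.
PROOF. `N = 4`; `j` the index with `o j = 2`, the other three `s i` are involutions (`orderOf (s i) = od S (s i) * orderOf (s i ^ od S (s i)) = 2`).
By the relation `s 0 s 1 s 2 s 3 = 1`, rotated: `s j (p q r) = 1` with `p q r` the others in cyclic order (`Fin 4`: four cases).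
`(p q r)^2 = (s j)^(-2) = z⁻¹ = z`, `z = s j ^ 2 ∈ S`, `|S| = 2` and `S` normal, so `z` is central, `z^2 = 1`; `p, q, r` generate (`s j =
(p q r)⁻¹`), and are not in `P` (`od P (s i) = od S (s i) = 2`).
-/

namespace Pool.Agent.H92.LG

open Finset Module
open Pool.Agent.H93.Hup (Inv MinInv)
open Pool.Agent.H52.VC (lam subR)
open Pool.Agent.H82.CO (chi quadInv genus nu eps zeta)
open Pool.Agent.H82.FIN

variable {G : Type} [Group G] [Fintype G]

/-- the group theory of case E, `L = 1`, for `t * p * q * r = 1` -/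
private theorem tri_aux (t p q r : G) (S P : Subgroup G) (hSn : S.Normal) (hS : Nat.card S = 2) (hP : P.index = 2)
    (ht : t ^ 2 ∈ S) (hto : orderOf (t ^ 2) = 2) (hp : p ^ 2 = 1) (hq : q ^ 2 = 1) (hr : r ^ 2 = 1)
    (hrel : t * (p * q * r) = 1) (hgen : Subgroup.closure {t, p, q, r} = ⊤)
    (hpP : p ∉ P) (hqP : q ∉ P) (hrP : r ∉ P) : (Nat.card P : ℝ) ≤ 2 * rn (1 : G) := by
  classical
  have hz2 : (t ^ 2) ^ 2 = 1 := by
    have h1 := pow_orderOf_eq_one (t ^ 2)
    rwa [hto] at h1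
  have hz1 : t ^ 2 ≠ 1 := by
    intro h1
    rw [h1, orderOf_one] at hto
    omega
  -- `S = {1, z}`
  have hS2 : ∀ w ∈ S, w ≠ 1 → w = t ^ 2 := by
    intro w hw hw1
    by_contra hne
    have hc : Fintype.card S = 2 := by
      rw [← Nat.card_eq_fintype_card, hS]
    have h1 : ({⟨1, S.one_mem⟩, ⟨w, hw⟩, ⟨t ^ 2, ht⟩} : Finset S).card = 3 := by
      refine card_eq_three.2 ⟨_, _, _, ?_, ?_, ?_, rfl⟩
      · intro h2
        exact hw1 (congrArg Subtype.val h2).symm
      · intro h2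
        exact hz1 (congrArg Subtype.val h2).symm
      · intro h2
        exact hne (congrArg Subtype.val h2)
    have h2 := card_le_univ ({⟨1, S.one_mem⟩, ⟨w, hw⟩, ⟨t ^ 2, ht⟩} : Finset S)
    rw [h1, hc] at h2
    omega
  have hzc : ∀ g, t ^ 2 * g = g * t ^ 2 := by
    intro g
    have h1 := hS2 _ (hSn.conj_mem _ ht g) (by
      intro h2
      apply hz1
      have h3 : t ^ 2 = g⁻¹ * (g * t ^ 2 * g⁻¹) * g := by group
      rw [h3, h2]
      group)
    calc t ^ 2 * g = g * t ^ 2 * g⁻¹ * g := by rw [h1]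
      _ = g * t ^ 2 := by group
  have hpqr : p * q * r = t⁻¹ := by
    rw [eq_inv_iff_mul_eq_one]
    have h1 := hrel
    have h2 : p * q * r * t = t⁻¹ * (t * (p * q * r)) * t := by group
    rw [h2, h1]
    group
  have h3 : (p * q * r) ^ 2 = t ^ 2 := by
    rw [hpqr, inv_pow]
    rw [inv_eq_iff_mul_eq_one, ← pow_two]
    exact hz2
  have h4 : Subgroup.closure {p, q, r} = (⊤ : Subgroup G) := by
    rw [eq_top_iff, ← hgen, Subgroup.closure_le]
    have h5 : p ∈ Subgroup.closure ({p, q, r} : Set G) := Subgroup.subset_closure (by simp)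
    have h6 : q ∈ Subgroup.closure ({p, q, r} : Set G) := Subgroup.subset_closure (by simp)
    have h7 : r ∈ Subgroup.closure ({p, q, r} : Set G) := Subgroup.subset_closure (by simp)
    have h8 : t ∈ Subgroup.closure ({p, q, r} : Set G) := by
      have h9 : t = (p * q * r)⁻¹ := by rw [hpqr, inv_inv]
      rw [h9]
      exact Subgroup.inv_mem _ (Subgroup.mul_mem _ (Subgroup.mul_mem _ h5 h6) h7)
    intro g hg
    rcases hg with rfl | rfl | rfl | hg
    · exact h8
    · exact h5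
    · exact h6
    · rw [Set.mem_singleton_iff.1 hg]
      exact h7
  exact three_inv p q r (t ^ 2) hp hq hr hzc hz2 h3 h4 P hP hpP hqP hrP

theorem tri_E {D : ℝ} {b σ : ℕ} {s : Fin 4 → G} {A S : Subgroup G} {x : G} {P : Subgroup G} (h : CE D b σ s A S x P)
    (hP : P.index = 2) (hS : Nat.card S = 2) (hk : ∀ i, od S (s i) = 2) (j : Fin 4)
    (hj : orderOf (s j ^ od S (s j)) = 2) (hi : ∀ i, i ≠ j → orderOf (s i ^ od S (s i)) = 1) :
    (Nat.card P : ℝ) ≤ 2 * rn (1 : G) := by
  have h1 : ∀ i, i ≠ j → s i ^ 2 = 1 := by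
    intro i hij
    have h2 := hi i hij
    rw [orderOf_eq_one_iff, hk] at h2
    exact h2
  have h2 : ∀ i, s i ∉ P := by
    intro i hiP
    have h3 := (od_dvd P (s i) 1).1 (by rwa [pow_one])
    rw [h.hod, hk] at h3
    omega
  have h3 : s j ^ 2 ∈ S := by
    have h4 := od_mem S (s j)
    rwa [hk] at h4
  have h4 : orderOf (s j ^ 2) = 2 := by rwa [hk] at hj
  have h5 : s 0 * s 1 * s 2 * s 3 = 1 := by
    have h6 := h.red.tup.prod
    simpa [List.ofFn_succ, mul_assoc] using h6
  have h6 : ∀ a b c d : Fin 4, ({a, b, c, d} : Set (Fin 4)) = Set.univ →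
      Subgroup.closure {s a, s b, s c, s d} = (⊤ : Subgroup G) := by
    intro a b c d habcd
    rw [← h.red.tup.gen, ← Set.image_univ, ← habcd]
    congr 1
    simp only [Set.image_insert_eq, Set.image_singleton]
  have hSn := h.red.hS
  have key : ∀ a b c : Fin 4, a ≠ j → b ≠ j → c ≠ j → ({j, a, b, c} : Set (Fin 4)) = Set.univ →
      s j * (s a * s b * s c) = 1 → (Nat.card P : ℝ) ≤ 2 * rn (1 : G) := fun a b c ha hb hc habc hrel =>
    tri_aux (s j) (s a) (s b) (s c) S P hSn hS hP h3 h4 (h1 a ha) (h1 b hb) (h1 c hc) hrel (h6 _ _ _ _ habc)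
      (h2 a) (h2 b) (h2 c)
  have huniv : ∀ a b c d : Fin 4, (∀ i : Fin 4, i = a ∨ i = b ∨ i = c ∨ i = d) → ({a, b, c, d} : Set (Fin 4)) = Set.univ := by
    intro a b c d h7
    ext i
    simpa using h7 i
  fin_cases j
  · exact key 1 2 3 (by decide) (by decide) (by decide) (huniv _ _ _ _ (by decide)) (by
      show s 0 * (s 1 * s 2 * s 3) = 1
      rw [← h5]
      group)
  · exact key 2 3 0 (by decide) (by decide) (by decide) (huniv _ _ _ _ (by decide)) (by
      show s 1 * (s 2 * s 3 * s 0) = 1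
      have h7 : s 1 * (s 2 * s 3 * s 0) = (s 0)⁻¹ * (s 0 * s 1 * s 2 * s 3) * s 0 := by group
      rw [h7, h5]
      group)
  · exact key 3 0 1 (by decide) (by decide) (by decide) (huniv _ _ _ _ (by decide)) (by
      show s 2 * (s 3 * s 0 * s 1) = 1
      have h7 : s 2 * (s 3 * s 0 * s 1) = (s 0 * s 1)⁻¹ * (s 0 * s 1 * s 2 * s 3) * (s 0 * s 1) := by group
      rw [h7, h5]
      group)
  · exact key 0 1 2 (by decide) (by decide) (by decide) (huniv _ _ _ _ (by decide)) (by
      show s 3 * (s 0 * s 1 * s 2) = 1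
      have h7 : s 3 * (s 0 * s 1 * s 2) = s 3 * (s 0 * s 1 * s 2 * s 3) * (s 3)⁻¹ := by group
      rw [h7, h5]
      group)


end Pool.Agent.H92.LG
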