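import Pool.Agent.H92.LG.Defs
import Pool.Agent.H92.LG.SetE
import Pool.Agent.H92.LG.EInq
import Pool.Agent.H82.FIN.RtS
import Pool.Agent.H92.LG.LamId
import Pool.Agent.H92.LG.TriE

set_option autoImplicit false

/-!
PROJECT LG (MP_bf82d2_ag, LinearGrowth; copy of the module of project FIN with an arbitrary bound D), module CaseE.
Case E.
PROOF. `set_E`, `inq_E`, `rS_le` (`γ = 48 σ^2`, `[G : A] ≤ b`), `lam_id`, `lam_cases` with `k_i = od S (s i)`, `o_i = orderOf (s i ^ k_i)`, `K = P.index`,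
`sg = |S|` (some `o_i ≥ 2`: otherwise all `s i ^ k_i = 1` and `S = ⊥` by `hcl`; `k_i = 1` gives `o_i = orderOf (s i) ≥ 2`).  `C2 = 4 b + 288 b^3 σ^2 +
48 b σ^2`, `T = |P|/|S|`: `(L/2 - 1) T + rn 1 ≤ C2`.  `L ≥ 3`: `T ≤ 2 C2`, `n = [G:P] T |S| ≤ 24 σ C2`.  `L ≥ 2` and `k_j = 2`, `o_j = 1`: `s j ^ 2 =
1`, `s j ∉ P` (`od P (s j) = 2`), `n ≤ cz (s j) rn 1 ≤ 48 σ^2 C2`.  `L = 1`: `tri_E`: `T = |P|/2 ≤ rn 1`, `T/2 ≤ C2`.
-/

namespace Pool.Agent.H92.LG

open Finset Module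
open Pool.Agent.H93.Hup (Inv MinInv)
open Pool.Agent.H52.VC (lam subR)
open Pool.Agent.H82.CO (chi quadInv genus nu eps zeta)
open Pool.Agent.H82.FIN

variable {G : Type} [Group G] [Fintype G]

private theorem caseE_some {D : ℝ} {b σ : ℕ} {N : ℕ} {s : Fin N → G} {A S : Subgroup G} {x : G}
    (h : Red D b σ s A S x) : ∃ i, 2 ≤ orderOf (s i ^ od S (s i)) := by
  by_contra hcon
  push Not at hcon
  have h1 : ∀ i, s i ^ od S (s i) = 1 := by
    intro i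
    have h2 := hcon i
    have h3 : 0 < orderOf (s i ^ od S (s i)) := orderOf_pos _
    exact orderOf_eq_one_iff.1 (by omega)
  apply h.hS1
  rw [h.hcl, Subgroup.normalClosure_eq_bot_iff]
  rintro _ ⟨i, rfl⟩
  exact h1 i

private theorem caseE_num {n T K sg σ C2 : ℝ} (hn : n = K * (T * sg)) (hT0 : 0 ≤ T)
    (hsg0 : 0 ≤ sg) (hK : K ≤ 12) (hsg : sg ≤ σ) (hT : T ≤ 2 * C2) : n ≤ 24 * σ * C2 := by
  have h1 : T * sg ≤ 2 * C2 * σ :=
    mul_le_mul hT hsg hsg0 (hT0.trans hT)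
  have h2 : K * (T * sg) ≤ 12 * (2 * C2 * σ) :=
    mul_le_mul hK h1 (mul_nonneg hT0 hsg0) (by norm_num)
  rw [hn]
  linarith

theorem case_E (D : ℝ) (b σ : ℕ) {N : ℕ} (s : Fin N → G) (A S : Subgroup G) (x : G) (h : Red D b σ s A S x)
    (hnu : nuM S s = 2) :
    (Nat.card G : ℝ) ≤ (48 * (σ : ℝ) ^ 2 + 24 * σ) * (2 * D * b + 288 * (b : ℝ) ^ 3 * (σ : ℝ) ^ 2 + 48 * b * (σ : ℝ) ^ 2) := by
  have hD0 : 0 ≤ D := h.hD
  obtain ⟨P, hE⟩ := set_E D b σ s A S x h hnu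
  have hinq := inq_E hE
  have hrS := rS_le A S P x h.hA h.hAc h.hx (48 * (σ : ℝ) ^ 2) (by positivity) hE.hcz
  have hlam := lam_id hE
  obtain ⟨hK12, hK2⟩ := index_le hE
  have hS0 : 0 < Nat.card S := Nat.card_pos
  have hP0 : 0 < Nat.card P := Nat.card_pos
  have hS0' : (0 : ℝ) < (Nat.card S : ℝ) := by exact_mod_cast hS0
  have hP0' : (0 : ℝ) < (Nat.card P : ℝ) := by exact_mod_cast hP0
  have hbA : (A.index : ℝ) ≤ b := by exact_mod_cast h.hAi
  have hSσ : (Nat.card S : ℝ) ≤ σ := by exact_mod_cast h.hSc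
  have hK12' : (P.index : ℝ) ≤ 12 := by exact_mod_cast hK12
  have hnG : (P.index : ℝ) * Nat.card P = Nat.card G := by
    exact_mod_cast Subgroup.index_mul_card P
  have hrn : 0 ≤ rn (1 : G) := by
    unfold rn
    exact Nat.cast_nonneg _
  obtain ⟨C2, hC2⟩ : ∃ C : ℝ, C = 2 * D * b + 288 * (b : ℝ) ^ 3 * (σ : ℝ) ^ 2 +
    48 * b * (σ : ℝ) ^ 2 := ⟨_, rfl⟩
  obtain ⟨T, hT⟩ : ∃ T : ℝ, T = (Nat.card P : ℝ) / Nat.card S := ⟨_, rfl⟩
  obtain ⟨L, hL⟩ : ∃ L : ℝ, L = ∑ i, ((P.index : ℝ) / od S (s i)) * Nat.card S *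
    (1 - 1 / (orderOf (s i ^ od S (s i)) : ℝ)) := ⟨_, rfl⟩
  rw [← hT, ← hL] at hlam
  have hT0 : 0 ≤ T := by
    rw [hT]
    positivity
  have hTS : T * Nat.card S = Nat.card P := by
    rw [hT]
    field_simp
  have hC20 : 0 ≤ C2 := by
    rw [hC2]
    positivity
  have hrS' : rS S / Nat.card S ≤ T + 48 * b * (σ : ℝ) ^ 2 := by
    rw [div_le_iff₀ hS0']
    have h1 : (A.index : ℝ) * (48 * (σ : ℝ) ^ 2) * Nat.card S ≤
        b * (48 * (σ : ℝ) ^ 2) * Nat.card S := by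
      gcongr
    calc rS S ≤ Nat.card P + A.index * (48 * (σ : ℝ) ^ 2) * Nat.card S := hrS
      _ ≤ T * Nat.card S + b * (48 * (σ : ℝ) ^ 2) * Nat.card S := by
          rw [hTS]
          linarith
      _ = _ := by ring
  have hmain : (L / 2 - 1) * T + rn (1 : G) ≤ C2 := by
    rw [hlam] at hinq
    rw [hC2]
    linarith
  have hnT : (Nat.card G : ℝ) = P.index * (T * Nat.card S) := by
    rw [hTS, hnG]
  rw [← hC2]
  have hcase := lam_cases N h.hN (fun i => od S (s i)) (fun i => orderOf (s i ^ od S (s i)))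
    (fun i => od_pos S (s i)) (fun i => orderOf_pos _) hnu P.index (Nat.card S)
    (fun i => by
      have h1 := od_dvd_index P hE.hP (s i)
      rw [hE.hod i] at h1
      exact h1) hK2 (fun h2 => index_two hE h2) hS0
    (fun i => Subgroup.orderOf_dvd_natCard S (od_mem S (s i)))
    (fun i hi => by
      have hi' : od S (s i) = 1 := hi
      have h1 : 0 < orderOf (s i ^ od S (s i)) := orderOf_pos _
      have h2 : orderOf (s i ^ od S (s i)) ≠ 1 := by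
        rw [hi', pow_one]
        intro h3
        exact h.tup.ne i (orderOf_eq_one_iff.1 h3)
      change 2 ≤ orderOf (s i ^ od S (s i))
      omega) (caseE_some h)
  have hfin : ∀ n : ℝ, n ≤ 24 * σ * C2 ∨ n ≤ 48 * (σ : ℝ) ^ 2 * C2 →
      n ≤ (48 * (σ : ℝ) ^ 2 + 24 * σ) * C2 := by
    intro n hn
    have h1 : 0 ≤ 24 * (σ : ℝ) * C2 := by positivity
    have h2 : 0 ≤ 48 * (σ : ℝ) ^ 2 * C2 := by positivity
    have h3 : (48 * (σ : ℝ) ^ 2 + 24 * σ) * C2 = 48 * (σ : ℝ) ^ 2 * C2 + 24 * σ * C2 := by ring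
    rcases hn with hn | hn <;> linarith
  apply hfin
  rw [← hL] at hcase
  rcases hcase with h3 | ⟨h2, j, hkj, hoj, hK⟩ | ⟨h1, hN4, hK, hsg, j, hk2, hoj, hoi⟩
  · left
    refine caseE_num hnT hT0 hS0'.le hK12' hSσ ?_
    have h4 : 1 / 2 * T ≤ (L / 2 - 1) * T := mul_le_mul_of_nonneg_right (by linarith) hT0
    linarith
  · right
    have h4 : 0 ≤ (L / 2 - 1) * T := mul_nonneg (by linarith) hT0
    have hrC : rn (1 : G) ≤ C2 := by linarith
    rw [hkj] at hoj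
    have hsq : s j ^ 2 = 1 := orderOf_eq_one_iff.1 hoj
    have hsP : s j ∉ P := by
      intro hmem
      have h5 : s j ^ 1 ∈ P := by rwa [pow_one]
      have h6 := (od_dvd P (s j) 1).1 h5
      rw [hE.hod j, hkj] at h6
      omega
    calc (Nat.card G : ℝ) ≤ cz (s j) * rn (1 : G) := card_le_cz_rn (s j) hsq
      _ ≤ 48 * (σ : ℝ) ^ 2 * rn (1 : G) := mul_le_mul_of_nonneg_right (hE.hcz _ hsP) hrn
      _ ≤ 48 * (σ : ℝ) ^ 2 * C2 := mul_le_mul_of_nonneg_left hrC (by positivity)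
  · left
    subst hN4
    have htri := tri_E hE hK hsg hk2 j hoj hoi
    have h5 : (Nat.card S : ℝ) = 2 := by
      rw [hsg]
      norm_num
    have h6 : T ≤ rn (1 : G) := by
      rw [h5] at hTS
      linarith
    refine caseE_num hnT hT0 hS0'.le hK12' hSσ ?_
    rw [h1] at hmain
    linarith


end Pool.Agent.H92.LG
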