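import Pool.Agent.H82.FIN.Defs

set_option autoImplicit false

/-!
PROJECT LG (MP_bf82d2_ag, LinearGrowth).  The data of the finiteness proof (project FIN) with an
arbitrary bound `D` of `quadInv`.
-/

namespace Pool.Agent.H92.LG

open Finset Module
open Pool.Agent.H82.CO (chi quadInv genus nu eps zeta)
open Pool.Agent.H82.FIN

section

variable {G : Type} [Group G] [Fintype G]

/-- The data of a counterexample after the reduction: `A` abelian, normal, of index `≤ b`, inverted by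
`x`; `S` normal of order `≤ σ`, the normal closure of the `s i ^ od S (s i)`, not trivial, `ν_S ≤ 2`. -/
structure Red (D : ℝ) (b σ : ℕ) {N : ℕ} (s : Fin N → G) (A S : Subgroup G) (x : G) : Prop where
  tup : Tup s
  hN : N = 4 ∨ N = 5
  hD : 0 ≤ D
  hd : (quadInv s).re ≤ D
  hA : A.Normal
  hAc : ∀ a ∈ A, ∀ c ∈ A, a * c = c * a
  hAi : A.index ≤ b
  hx : ∀ a ∈ A, x * a * x⁻¹ = a⁻¹
  hS : S.Normal
  hSc : Nat.card S ≤ σ
  hS1 : S ≠ ⊥
  hcl : S = Subgroup.normalClosure (Set.range fun i => s i ^ od S (s i))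
  hnu : nuM S s ≤ 2

/-- Case E: `P` is the kernel of the linear character `VQ S s`. -/
structure CE (D : ℝ) (b σ : ℕ) {N : ℕ} (s : Fin N → G) (A S : Subgroup G) (x : G) (P : Subgroup G) : Prop where
  red : Red D b σ s A S x
  hP : P.Normal
  hSP : S ≤ P
  hV : ∀ g, VQ S s g = 1 ↔ g ∈ P
  hVm : ∀ g h, VQ S s (g * h) = VQ S s g * VQ S s h
  hPt : P ≠ ⊤
  hod : ∀ i, od P (s i) = od S (s i)
  h12 : ∀ i, od S (s i) ∣ 12
  hnu : nuM P s = 2
  hcz : ∀ g, g ∉ P → cz g ≤ 48 * (σ : ℝ) ^ 2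

/-- Case D: `G / S` is dihedral; `s i₁`, `s i₂` are involutions modulo `S`, `y = s iy` generates
the cyclic group `P / S` of index `2`, the other `s j` are in `S`. -/
structure CD (D : ℝ) (b σ : ℕ) {N : ℕ} (s : Fin N → G) (A S : Subgroup G) (x : G) (P : Subgroup G) (i₁ i₂ iy : Fin N) : Prop where
  red : Red D b σ s A S x
  hP : P.Normal
  hSP : S ≤ P
  h12 : i₁ ≠ i₂
  h1y : i₁ ≠ iy
  h2y : i₂ ≠ iy
  h1 : s i₁ ∉ P
  h2 : s i₂ ∉ P
  o1 : od S (s i₁) = 2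
  o2 : od S (s i₂) = 2
  oy : 2 * Nat.card S * od S (s iy) = Nat.card G
  hj : ∀ j, j ≠ i₁ → j ≠ i₂ → j ≠ iy → s j ∈ S
  hPi : P.index = 2
  hPy : ∀ p ∈ P, ∃ k : ℕ, p * (s iy ^ k)⁻¹ ∈ S
  hy : s iy ∈ P
  hV : ∀ g, VQ S s g = 0
  hcz : ∀ g, g ∉ P → cz g ≤ 4 * (σ : ℝ) ^ 2

end

end Pool.Agent.H92.LG
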