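import Pool.Agent.H92.LG.CaseD
import Pool.Agent.H92.LG.CaseE
import Pool.Agent.H82.FIN.RedK
import Pool.Agent.H81.NF.Quo
import Pool.Agent.H81.NF.Roots
import Pool.Agent.H10.LGA

set_option autoImplicit false

/-!
PROJECT LG (MP_bf82d2_ag, LinearGrowth), module Main.
Groups which are not abelian, four or five branch points: `|G| ≤ C (d + 1)`.
-/

namespace Pool.Agent.H92.LG

open Finset Module
open Pool.Agent.H82.CO (chi quadInv genus nu eps zeta)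
open Pool.Agent.H82.FIN

theorem main_L : ∃ C : ℝ, 0 < C ∧ ∀ (G : Type) [Group G] [Fintype G] (N : ℕ) (_hN : N = 4 ∨ N = 5)
    (s : Fin N → G) (_hs : ∀ i, s i ≠ 1) (_hna : ∃ a b : G, a * b ≠ b * a)
    (_hprod : (List.ofFn s).prod = 1) (_hgen : Subgroup.closure (Set.range s) = ⊤)
    (_hg : 1 < genus s), (Nat.card G : ℝ) ≤ C * ((quadInv s).re + 1) := by
  obtain ⟨b, hb⟩ := Pool.Agent.H81.NF.structure_gen
  obtain ⟨σ, ε, hε, hε1, hσ⟩ := Pool.Agent.H81.NF.quo_gen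
  obtain ⟨CE, hCE⟩ : ∃ E : ℝ, E = (48 * (σ : ℝ) ^ 2 + 24 * σ) *
      (2 * b + 288 * (b : ℝ) ^ 3 * (σ : ℝ) ^ 2 + 48 * b * (σ : ℝ) ^ 2) := ⟨_, rfl⟩
  obtain ⟨CD, hCD⟩ : ∃ E : ℝ, E = 60 * σ + 2 * b * σ + 4 * σ * (σ + 2 * b) +
      (σ : ℝ) ^ 2 * (2 * b + 24 * (b : ℝ) ^ 3 * (σ : ℝ) ^ 2 + σ) +
      (8 + 4 * (σ : ℝ) ^ 2) * (2 * (2 * b + 24 * (b : ℝ) ^ 3 * (σ : ℝ) ^ 2 + 12 * b * σ) + 3 * σ) := ⟨_, rfl⟩
  have hCE0 : 0 ≤ CE := by rw [hCE]; positivity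
  have hCD0 : 0 ≤ CD := by rw [hCD]; positivity
  refine ⟨1 / ε + CE + CD, by positivity, fun G _ _ N hN s hs hna hprod hgen hg => ?_⟩
  have htup : Tup s := ⟨hs, hprod, hgen⟩
  have hD0 := Pool.Agent.H10.LGA.quad_nn s htup
  obtain ⟨D, hD⟩ : ∃ D : ℝ, D = (quadInv s).re := ⟨_, rfl⟩
  rw [← hD] at hD0 ⊢
  have hp1 : 0 ≤ 1 / ε * (D + 1) := by positivity
  have hp2 : 0 ≤ CE * (D + 1) := by positivity
  have hp3 : 0 ≤ CD * (D + 1) := by positivity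
  have hexp : (1 / ε + CE + CD) * (D + 1) = 1 / ε * (D + 1) + CE * (D + 1) + CD * (D + 1) := by ring
  rw [hexp]
  have hn0 : (0 : ℝ) ≤ Nat.card G := Nat.cast_nonneg _
  by_cases hsm : D ≤ ε * Nat.card G
  · have hsm' : D ≤ 1 / 1100 * (Nat.card G : ℝ) := hsm.trans (mul_le_mul_of_nonneg_right hε1 hn0)
    rw [hD] at hsm hsm'
    obtain ⟨A, hA, hAc, hAi, x, -, hx⟩ := hb G N hN s hs hna hprod hgen hg hsm'
    obtain ⟨K, hK, hKc, hnuK⟩ := hσ G N hN s hs hna hprod hgen hg hsm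
    have hnu : nuM K s ≤ 2 := by
      have h1 : nuM K s = Pool.Agent.H11.GQ.nuK s K := by
        rw [nuM, Pool.Agent.H11.GQ.nuK]
        refine sum_congr rfl fun i _ => ?_
        rw [od_mk]
      rw [h1]
      exact hnuK
    obtain ⟨S, hS, hSc, hS1, hcl, hnuS⟩ := red_K s htup hg σ K hK hKc hnu
    have hred : Red D b σ s A S x :=
      ⟨htup, hN, hD0, hD.symm.le, hA, hAc, hAi, hx, hS, hSc, hS1, hcl, hnuS⟩
    rcases hnuS.lt_or_eq with h2 | h2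
    · have h3 := case_D D b σ s A S x hred h2
      have h4 : (0 : ℝ) ≤ 60 * σ * D + 2 * b * σ * D + 4 * σ * (σ * D + 2 * b) +
          (σ : ℝ) ^ 2 * (2 * b + (24 * (b : ℝ) ^ 3 * (σ : ℝ) ^ 2 + σ) * D) +
          (8 + 4 * (σ : ℝ) ^ 2) * (2 * (2 * b + (24 * (b : ℝ) ^ 3 * (σ : ℝ) ^ 2 + 12 * b * σ) * D) + 3 * σ * D) := by
        positivity
      have h5 : CD * (D + 1) = (60 * σ + 2 * b * σ + 4 * σ * (σ + 2 * b * D) +
          (σ : ℝ) ^ 2 * (2 * D * b + 24 * (b : ℝ) ^ 3 * (σ : ℝ) ^ 2 + σ) +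
          (8 + 4 * (σ : ℝ) ^ 2) * (2 * (2 * D * b + 24 * (b : ℝ) ^ 3 * (σ : ℝ) ^ 2 + 12 * b * σ) + 3 * σ)) +
          (60 * σ * D + 2 * b * σ * D + 4 * σ * (σ * D + 2 * b) +
          (σ : ℝ) ^ 2 * (2 * b + (24 * (b : ℝ) ^ 3 * (σ : ℝ) ^ 2 + σ) * D) +
          (8 + 4 * (σ : ℝ) ^ 2) * (2 * (2 * b + (24 * (b : ℝ) ^ 3 * (σ : ℝ) ^ 2 + 12 * b * σ) * D) + 3 * σ * D)) := by
        rw [hCD]
        ring
      linarith
    · have h3 := case_E D b σ s A S x hred h2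
      have h4 : (0 : ℝ) ≤ (48 * (σ : ℝ) ^ 2 + 24 * σ) *
          (2 * b + (288 * (b : ℝ) ^ 3 * (σ : ℝ) ^ 2 + 48 * b * (σ : ℝ) ^ 2) * D) := by positivity
      have h5 : CE * (D + 1) = (48 * (σ : ℝ) ^ 2 + 24 * σ) *
          (2 * D * b + 288 * (b : ℝ) ^ 3 * (σ : ℝ) ^ 2 + 48 * b * (σ : ℝ) ^ 2) +
          (48 * (σ : ℝ) ^ 2 + 24 * σ) *
          (2 * b + (288 * (b : ℝ) ^ 3 * (σ : ℝ) ^ 2 + 48 * b * (σ : ℝ) ^ 2) * D) := by
        rw [hCE]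
        ring
      linarith
  · push Not at hsm
    have h1 : (Nat.card G : ℝ) ≤ 1 / ε * (D + 1) := by
      rw [one_div, ← div_eq_inv_mul, le_div_iff₀ hε]
      linarith
    linarith

end Pool.Agent.H92.LG
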